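import Pool.Agent.H70.EN.Targets
import Pool.Agent.H1.N4D.WTS
import Pool.Agent.H67.N4D.MER

set_option autoImplicit false

namespace Pool.Agent.H20.ENM

open Finset Pool.Agent.H6.N4D Pool.Agent.H93.EB Pool.Agent.H70.EN

theorem tWTS : T_WTS := Pool.Agent.H1.N4D.pf_WTS Pool.Agent.H67.N4D.pf_MER

theorem pf_QMS : T_QMS := by
  obtain ⟨⟨X₁, hX₁⟩, hB, -⟩ := tWTS
  obtain ⟨X₂, hX₂⟩ := hB 3 (by norm_num)
  -- the variable
  set XX : ℕ → ℝ := fun m =>
    Real.exp (Real.log ((2 : ℝ) ^ (m / 400)) ^ (20 / 19 : ℝ)) with hXX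
  have hlog : ∀ m : ℕ, 0 ≤ Real.log ((2 : ℝ) ^ (m / 400)) := fun m =>
    Real.log_nonneg (one_le_pow₀ (by norm_num))
  have hPP : ∀ m : ℕ, PP (XX m) = (2 : ℝ) ^ (m / 400) := by
    intro m
    unfold PP
    rw [hXX]
    simp only
    rw [Real.log_exp, ← Real.rpow_mul (hlog m)]
    have h9 : (20 / 19 : ℝ) * (19 / 20) = 1 := by norm_num
    rw [h9, Real.rpow_one, Real.exp_log (by positivity)]
  have htend : Filter.Tendsto XX Filter.atTop Filter.atTop := by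
    refine Real.tendsto_exp_atTop.comp ?_
    refine (tendsto_rpow_atTop (by norm_num : (0 : ℝ) < 20 / 19)).comp ?_
    refine Real.tendsto_log_atTop.comp ?_
    refine (tendsto_pow_atTop_atTop_of_one_lt (by norm_num : (1 : ℝ) < 2)).comp ?_
    exact Nat.tendsto_div_const_atTop (by norm_num)
  obtain ⟨m₁, hm₁⟩ := Filter.eventually_atTop.mp (htend.eventually_ge_atTop (max X₁ X₂))
  refine ⟨max m₁ 400, ?_⟩
  intro m hm
  have h1 := hm₁ m ((le_max_left _ _).trans hm)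
  have h400 : 400 ≤ m := (le_max_right _ _).trans hm
  have e1 := hX₁ (XX m) ((le_max_left _ _).trans h1)
  have e2 := hX₂ (XX m) ((le_max_right _ _).trans h1)
  rw [hPP m] at e1 e2
  have hfl : ∀ k : ℕ, ⌊(((2 : ℝ) ^ (m / 400)) ^ k)⌋₊ = 2 ^ (m / 400 * k) := by
    intro k
    have : (((2 : ℝ) ^ (m / 400)) ^ k) = ((2 ^ (m / 400 * k) : ℕ) : ℝ) := by
      push_cast
      rw [pow_mul]
    rw [this, Nat.floor_natCast]
  have hfl1 : ⌊((2 : ℝ) ^ (m / 400))⌋₊ = 2 ^ (m / 400) := by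
    have := hfl 1
    simpa using this
  have hsub1 : Pr ((2 : ℝ) ^ (m / 400)) (((2 : ℝ) ^ (m / 400)) ^ 2) ⊆ QQ m := by
    intro p hp
    unfold Pr at hp
    unfold QQ
    rw [hfl 2, hfl1] at hp
    rw [mem_filter, mem_Ioc] at hp ⊢
    refine ⟨⟨hp.1.1, hp.1.2.trans ?_⟩, hp.2⟩
    exact Nat.pow_le_pow_right (by norm_num) (by omega)
  have hsub2 : QQ m ⊆ Pr ((2 : ℝ) ^ (m / 400)) (((2 : ℝ) ^ (m / 400)) ^ 3) := by
    intro p hp
    unfold Pr
    unfold QQ at hp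
    rw [hfl 3, hfl1]
    rw [mem_filter, mem_Ioc] at hp ⊢
    refine ⟨⟨hp.1.1, hp.1.2.trans ?_⟩, hp.2⟩
    exact Nat.pow_le_pow_right (by norm_num) (by omega)
  constructor
  · refine e1.trans (sum_le_sum_of_subset_of_nonneg hsub1 fun q _ _ => by positivity)
  · refine (sum_le_sum_of_subset_of_nonneg hsub2 fun q _ _ => by positivity).trans ?_
    exact_mod_cast e2

end Pool.Agent.H20.ENM
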