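import Pool.Agent.H70.EN.Targets

set_option autoImplicit false

namespace Pool.Agent.H20.ENM

open Finset Pool.Agent.H6.N4D Pool.Agent.H93.EB Pool.Agent.H70.EN

theorem pf_MNG (h1 : T_MBD) (h2 : T_SBG) (h3 : T_LG1) (h4 : T_LSH) : T_MNG := by
  refine ⟨12, by norm_num, ?_⟩
  intro ψ X N H lam hcv hmo hli hrg hX hlam hN hNH
  set J := H / N with hJ
  have hJ1 : 1 ≤ J := (Nat.one_le_div_iff (by omega)).mpr hNH
  have hJ0 : (0 : ℝ) < (J : ℝ) := by exact_mod_cast hJ1
  have hH0 : (0 : ℝ) < (H : ℝ) := by exact_mod_cast (by omega : 0 < H)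
  have hN0 : (0 : ℝ) < (N : ℝ) := by exact_mod_cast (by omega : 0 < N)
  have hNH1 : (N : ℝ) / H ≤ 1 := by
    rw [div_le_one hH0]
    exact_mod_cast hNH
  have hNHp : 0 ≤ (N : ℝ) / H := by positivity
  set f : ℕ → ℝ := fun n => ψ (M lam N n) with hf
  have hMr : ∀ n, 0 ≤ M lam N n ∧ M lam N n ≤ 1 := fun n =>
    ⟨M_nonneg lam N n, M_le_one lam hlam N n⟩
  have hfr : ∀ n, |f n| ≤ 4 := by
    intro n
    have := hrg (M lam N n) ⟨(hMr n).1, by linarith [(hMr n).2]⟩
    rw [abs_of_nonneg this.1]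
    exact this.2
  have hpt : ∀ n ∈ Icc 1 X, ψ (M lam H n) ≤
      (∑ j ∈ range J, f (n + j * N)) / J + 4 * ((N : ℝ) / H) := by
    intro n _
    set a : ℝ := (∑ j ∈ range J, M lam N (n + j * N)) / J with ha
    have ha0 : 0 ≤ a := div_nonneg (sum_nonneg fun j _ => (hMr _).1) hJ0.le
    have ha1 : a ≤ 1 := by
      rw [ha, div_le_one hJ0]
      calc ∑ j ∈ range J, M lam N (n + j * N) ≤ ∑ _j ∈ range J, (1 : ℝ) :=
            sum_le_sum fun j _ => (hMr _).2
        _ = J := by simp
    have hM : M lam H n ≤ a + (N : ℝ) / H := h2 lam H N n hlam hN hNH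
    have hM0 := M_nonneg lam H n
    have hM1 := M_le_one lam hlam H n
    have e1 : ψ (M lam H n) ≤ ψ (a + (N : ℝ) / H) :=
      hmo ⟨hM0, by linarith⟩ ⟨by linarith, by linarith⟩ hM
    have e2 : |ψ (a + (N : ℝ) / H) - ψ a| ≤ 4 * |a + (N : ℝ) / H - a| :=
      hli _ ⟨by linarith, by linarith⟩ _ ⟨ha0, by linarith⟩
    rw [add_sub_cancel_left, abs_of_nonneg hNHp] at e2
    have e3 : ψ a ≤ (∑ j ∈ range J, f (n + j * N)) / J := by
      have := hcv.map_sum_le (t := range J) (w := fun _ => 1 / (J : ℝ))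
        (p := fun j => M lam N (n + j * N)) (fun _ _ => by positivity)
        (by rw [sum_const, card_range, nsmul_eq_mul]; field_simp)
        (fun j _ => ⟨(hMr _).1, by linarith [(hMr (n + j * N)).2]⟩)
      simp only [smul_eq_mul, ← mul_sum] at this
      rw [one_div_mul_eq_div, one_div_mul_eq_div] at this
      exact this
    have e4 := (abs_le.mp e2).2
    linarith
  have hlogX : 1 ≤ Real.log X := by
    rw [Real.le_log_iff_exp_le (by positivity)]
    have h5 : (3 : ℝ) ≤ X := by exact_mod_cast hX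
    exact (Real.exp_one_lt_d9.le.trans (by norm_num)).trans h5
  have hone := lg_one_le X
  have hshift : ∀ j ∈ range J, lg X (fun n => f (n + j * N)) ≤
      lg X f + 12 * (1 + Real.log H) := by
    intro j hj
    have e1 := lg_shift X (j * N) f hfr
    have e2 : hs (j * N) ≤ 1 + Real.log H := by
      refine (hs_mono ?_).trans (hs_le H)
      rw [mem_range] at hj
      calc j * N ≤ J * N := Nat.mul_le_mul_right N hj.le
        _ ≤ H := Nat.div_mul_le_self H N
    have e3 := (abs_le.mp e1).2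
    linarith
  calc lg X (fun n => ψ (M lam H n))
      ≤ lg X (fun n => (∑ j ∈ range J, f (n + j * N)) / J + 4 * ((N : ℝ) / H)) := lg_mono hpt
    _ = (∑ j ∈ range J, lg X (fun n => f (n + j * N))) / J +
        4 * ((N : ℝ) / H) * lg X (fun _ => 1) := by
        rw [lg_add, lg_const X (4 * ((N : ℝ) / H))]
        congr 1
        have e1 : (fun n => (∑ j ∈ range J, f (n + j * N)) / (J : ℝ)) =
            fun n => (1 / (J : ℝ)) * ∑ j ∈ range J, f (n + j * N) := by
          funext n
          rw [one_div_mul_eq_div]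
        rw [e1, lg_mul, lg_sum, one_div_mul_eq_div]
    _ ≤ (∑ _j ∈ range J, (lg X f + 12 * (1 + Real.log H))) / J +
        4 * ((N : ℝ) / H) * (2 * Real.log X) := by
        apply add_le_add
        · exact div_le_div_of_nonneg_right (sum_le_sum hshift) hJ0.le
        · exact mul_le_mul_of_nonneg_left (by linarith) (by positivity)
    _ = lg X f + 12 * (1 + Real.log H) + 8 * ((N : ℝ) / H * Real.log X) := by
        rw [sum_const, card_range, nsmul_eq_mul]
        field_simp
        ring
    _ ≤ lg X f + 12 * ((N : ℝ) / H * Real.log X + Real.log H + 1) := by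
        have : 0 ≤ (N : ℝ) / H * Real.log X := mul_nonneg hNHp (by linarith)
        linarith

end Pool.Agent.H20.ENM
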